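import Mathlib

set_option autoImplicit false

namespace Pool.Agent.Results.MP_01f920_co.MultipartEKRFails

open Finset

variable {d : ℕ}

/-- The number of elements of `F` in the `i`-th class `X_i` of the ground set
`X = ⨆ X_i`, `|X_i| = n i`. -/
def inter {n : Fin d → ℕ} (F : Finset (Σ i, Fin (n i))) (i : Fin d) : ℕ :=
  (F.filter (fun p => p.1 = i)).card

/-- The family `H` of all `k`-subsets `F` of the ground set with `|F ∩ X_i| ≥ κ i` for all `i`. -/
def H (n κ : Fin d → ℕ) (k : ℕ) : Finset (Finset (Σ i, Fin (n i))) :=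
  univ.filter (fun F => F.card = k ∧ ∀ i, κ i ≤ inter F i)

/-- The star `H(x)`. -/
def star (n κ : Fin d → ℕ) (k : ℕ) (x : Σ i, Fin (n i)) : Finset (Finset (Σ i, Fin (n i))) :=
  (H n κ k).filter (fun F => x ∈ F)

/-- `H` has the EKR property: every intersecting subfamily has at most `max_x |H(x)|` members. -/
def EKR (n κ : Fin d → ℕ) (k : ℕ) : Prop :=
  ∀ G ⊆ H n κ k, (∀ A ∈ G, ∀ B ∈ G, (A ∩ B).Nonempty) →
    ∃ x : Σ i, Fin (n i), G.card ≤ (star n κ k x).card

/-- The hypotheses of the question. -/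
def Hyp (n κ : Fin d → ℕ) (k : ℕ) : Prop :=
  1 ≤ d ∧ (∀ i, κ i < n i) ∧ ∑ i, κ i ≤ k ∧ (∀ i, 2 * κ i ≤ n i) ∧
    ∃ e : Fin d, ∀ i, i ≠ e → 0 < κ i → (k - ∑ j, κ j) + κ i < n i

theorem card_eq_sum_inter {n : Fin d → ℕ} (F : Finset (Σ i, Fin (n i))) :
    F.card = ∑ i, inter F i := by
  unfold inter
  exact card_eq_sum_card_fiberwise (fun _ _ => mem_coe.mpr (mem_univ _))

theorem inter_le {n : Fin d → ℕ} (F : Finset (Σ i, Fin (n i))) (i : Fin d) :
    inter F i ≤ n i := by
  have h : inter (univ : Finset (Σ i, Fin (n i))) i = n i := by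
    unfold inter
    rw [← Fintype.card_subtype]
    rw [Fintype.card_congr (Equiv.sigmaSubtype (β := fun i => Fin (n i)) i)]
    simp
  rw [← h]
  unfold inter
  exact card_le_card (filter_subset_filter _ (subset_univ _))

theorem inter_univ {n : Fin d → ℕ} (i : Fin d) :
    inter (univ : Finset (Σ i, Fin (n i))) i = n i := by
  unfold inter
  rw [← Fintype.card_subtype]
  rw [Fintype.card_congr (Equiv.sigmaSubtype (β := fun i => Fin (n i)) i)]
  simp

theorem inter_sigma {n : Fin d → ℕ} (t : ∀ i, Finset (Fin (n i))) (i : Fin d) :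
    inter (univ.sigma t) i = (t i).card := by
  unfold inter
  have : (univ.sigma t).filter (fun p => p.1 = i) = (t i).map (Function.Embedding.sigmaMk i) := by
    ext ⟨j, p⟩
    simp only [mem_filter, mem_sigma, mem_univ, true_and, mem_map, Function.Embedding.sigmaMk_apply]
    constructor
    · rintro ⟨h1, h2⟩
      subst h2
      exact ⟨p, h1, rfl⟩
    · rintro ⟨a, h1, h2⟩
      cases h2
      exact ⟨h1, rfl⟩
  rw [this, card_map]

theorem inter_mono {n : Fin d → ℕ} {F G : Finset (Σ i, Fin (n i))} (h : F ⊆ G) (i : Fin d) :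
    inter F i ≤ inter G i :=
  card_le_card (filter_subset_filter _ h)

theorem nonempty_inter {n : Fin d → ℕ} {A B : Finset (Σ i, Fin (n i))} {i : Fin d}
    (h : n i < inter A i + inter B i) : (A ∩ B).Nonempty := by
  by_contra h0
  rw [not_nonempty_iff_eq_empty, ← disjoint_iff_inter_eq_empty] at h0
  have h1 : inter (A ∪ B) i = inter A i + inter B i := by
    unfold inter
    rw [filter_union, card_union_of_disjoint]
    exact disjoint_filter_filter h0
  have := inter_le (A ∪ B) i
  omega

theorem upper {n κ : Fin d → ℕ} {k : ℕ} {F : Finset (Σ i, Fin (n i))} (hF : F ∈ H n κ k)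
    (i : Fin d) : inter F i + ∑ j, κ j ≤ k + κ i := by
  simp only [H, mem_filter, mem_univ, true_and] at hF
  obtain ⟨h1, h2⟩ := hF
  rw [card_eq_sum_inter] at h1
  have h3 : ∑ j ∈ univ.erase i, κ j ≤ ∑ j ∈ univ.erase i, inter F j :=
    sum_le_sum fun j _ => h2 j
  have h4 := add_sum_erase univ κ (mem_univ i)
  have h5 := add_sum_erase univ (fun j => inter F j) (mem_univ i)
  omega

/-- Stars centred in the same class have the same size. -/
theorem star_card_eq {n κ : Fin d → ℕ} {k : ℕ} {i : Fin d} (a b : Fin (n i)) :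
    (star n κ k ⟨i, a⟩).card = (star n κ k ⟨i, b⟩).card := by
  classical
  set σ : Equiv.Perm (Σ i, Fin (n i)) := Equiv.swap ⟨i, a⟩ ⟨i, b⟩ with hσ
  have hfst : ∀ p, (σ p).1 = p.1 := by
    intro p
    rw [hσ, Equiv.swap_apply_def]
    split_ifs with h1 h2
    · rw [h1]
    · rw [h2]
    · rfl
  have hinter : ∀ (F : Finset (Σ i, Fin (n i))) j, inter (F.map σ.toEmbedding) j = inter F j := by
    intro F j
    unfold inter
    rw [filter_map, card_map]
    congr 1
    ext p
    simp [hfst]
  have hH : ∀ F ∈ H n κ k, F.map σ.toEmbedding ∈ H n κ k := by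
    intro F hF
    simp only [H, mem_filter, mem_univ, true_and] at hF ⊢
    refine ⟨by rw [card_map]; exact hF.1, fun j => ?_⟩
    rw [hinter]
    exact hF.2 j
  have hle : ∀ (x y : Σ i, Fin (n i)), σ x = y → (star n κ k x).card ≤ (star n κ k y).card := by
    intro x y hxy
    refine card_le_card_of_injOn (fun F => F.map σ.toEmbedding) ?_ ?_
    · intro F hF
      simp only [star, coe_filter, Set.mem_ofPred_eq] at hF ⊢
      refine ⟨hH F hF.1, ?_⟩
      rw [mem_map]
      exact ⟨x, hF.2, hxy⟩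
    · intro F _ G _ h
      exact map_injective _ h
  refine le_antisymm (hle _ _ ?_) (hle _ _ ?_)
  · rw [hσ, Equiv.swap_apply_left]
  · rw [hσ, Equiv.swap_apply_right]

/-- Double counting. -/
theorem count {n κ : Fin d → ℕ} {k : ℕ} {i : Fin d} (a : Fin (n i)) :
    n i * (star n κ k ⟨i, a⟩).card = ∑ F ∈ H n κ k, inter F i := by
  classical
  have h1 : ∑ F ∈ H n κ k, inter F i
      = ∑ F ∈ H n κ k, ∑ p ∈ univ.filter (fun p : Σ i, Fin (n i) => p.1 = i),
          if p ∈ F then 1 else 0 := by
    refine sum_congr rfl fun F _ => ?_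
    unfold inter
    rw [card_eq_sum_ones, ← sum_filter, filter_filter]
    refine sum_congr ?_ fun _ _ => rfl
    ext p
    simp [and_comm]
  rw [h1, sum_comm]
  have h2 : ∀ p ∈ univ.filter (fun p : Σ i, Fin (n i) => p.1 = i),
      (∑ F ∈ H n κ k, if p ∈ F then 1 else 0) = (star n κ k ⟨i, a⟩).card := by
    rintro ⟨j, b⟩ hp
    simp only [mem_filter, mem_univ, true_and] at hp
    subst hp
    rw [star_card_eq a b]
    unfold star
    rw [card_filter]
  rw [sum_congr rfl h2, sum_const, smul_eq_mul]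
  congr 1
  have := inter_univ (n := n) i
  unfold inter at this
  exact this.symm

/-- There is a `k`-set avoiding `x` with prescribed lower bounds for the intersections. -/
theorem exists_avoid {n m : Fin d → ℕ} (hm : ∀ i, m i < n i) {k : ℕ} (h1 : ∑ i, m i ≤ k)
    (h2 : k < ∑ i, n i) (x : Σ i, Fin (n i)) :
    ∃ F : Finset (Σ i, Fin (n i)), F.card = k ∧ x ∉ F ∧ ∀ i, m i ≤ inter F i := by
  classical
  have hT : ∀ i, ∃ T : Finset (Fin (n i)),
      T ⊆ univ.filter (fun a => (⟨i, a⟩ : Σ i, Fin (n i)) ≠ x) ∧ T.card = m i := by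
    intro i
    refine exists_subset_card_eq ?_
    have h3 := card_filter_add_card_filter_not (s := (univ : Finset (Fin (n i))))
      (fun a => (⟨i, a⟩ : Σ i, Fin (n i)) ≠ x)
    have h4 : (univ.filter (fun a : Fin (n i) => ¬ (⟨i, a⟩ : Σ i, Fin (n i)) ≠ x)).card ≤ 1 := by
      rw [card_le_one]
      intro a ha b hb
      simp only [ne_eq, not_not, mem_filter, mem_univ, true_and] at ha hb
      have := ha.trans hb.symm
      simpa using this
    have h5 : (univ : Finset (Fin (n i))).card = n i := by simp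
    have h6 := hm i
    omega
  choose T hT1 hT2 using hT
  obtain ⟨F, hF1, hF2, hF3⟩ := exists_subsuperset_card_eq (s := univ.sigma T)
    (t := univ.erase x) (n := k) (by
      intro p hp
      rw [mem_sigma] at hp
      have := hT1 p.1 hp.2
      simp only [mem_filter, mem_univ, true_and] at this
      rw [mem_erase]
      exact ⟨this, mem_univ _⟩)
    (by
      rw [card_sigma, sum_congr rfl fun i _ => hT2 i]
      exact h1)
    (by
      rw [card_erase_of_mem (mem_univ _), card_univ, Fintype.card_sigma]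
      simp only [Fintype.card_fin]
      omega)
  refine ⟨F, hF3, fun hx => ?_, fun i => ?_⟩
  · have := hF2 hx
    simp at this
  · rw [← hT2 i, ← inter_sigma T i]
    exact inter_mono hF1 i

/-- First disproof: a class with exactly `2 k_i` elements. -/
theorem partA {n κ : Fin d → ℕ} {k : ℕ} (hd : 2 ≤ d) (i₁ : Fin d) (h2 : 2 ≤ κ i₁)
    (hn : n i₁ = 2 * κ i₁) (hs : ∑ i, κ i < k)
    (hj : ∀ j, j ≠ i₁ → 2 * ((k - ∑ i, κ i) + κ j) ≤ n j) :
    Hyp n κ k ∧ ¬ EKR n κ k := by
  classical
  have hk : ∀ i, κ i < n i := by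
    intro i
    by_cases h : i = i₁
    · subst h; omega
    · have := hj i h; omega
  refine ⟨⟨by omega, hk, hs.le, fun i => ?_, i₁, fun i h _ => ?_⟩, ?_⟩
  · by_cases h : i = i₁
    · subst h; omega
    · have := hj i h; omega
  · have := hj i h; omega
  intro hE
  set x₀ : Σ i, Fin (n i) := ⟨i₁, ⟨0, by omega⟩⟩ with hx₀
  set G := (H n κ k).filter (fun F => κ i₁ < inter F i₁ ∨ x₀ ∈ F) with hG
  -- the number of elements of the ground set
  obtain ⟨j₀, hj₀⟩ : ∃ j₀ : Fin d, j₀ ≠ i₁ := by
    have : Nontrivial (Fin d) := by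
      rw [Fin.nontrivial_iff_two_le]; exact hd
    exact exists_ne i₁
  have hN : k < ∑ i, n i := by
    have h3 : ∑ j ∈ (univ.erase i₁).erase j₀, κ j ≤ ∑ j ∈ (univ.erase i₁).erase j₀, n j :=
      sum_le_sum fun j _ => (hk j).le
    have h4 := add_sum_erase univ κ (mem_univ i₁)
    have h5 := add_sum_erase univ n (mem_univ i₁)
    have h6 := add_sum_erase (univ.erase i₁) κ (mem_erase.mpr ⟨hj₀, mem_univ _⟩)
    have h7 := add_sum_erase (univ.erase i₁) n (mem_erase.mpr ⟨hj₀, mem_univ _⟩)
    have h8 := hj j₀ hj₀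
    omega
  -- `G` is intersecting
  have hint : ∀ A ∈ G, ∀ B ∈ G, (A ∩ B).Nonempty := by
    intro A hA B hB
    simp only [hG, H, mem_filter, mem_univ, true_and] at hA hB
    have hA1 := hA.1.2 i₁
    have hB1 := hB.1.2 i₁
    rcases hA.2 with h | h
    · exact nonempty_inter (i := i₁) (by omega)
    · rcases hB.2 with h' | h'
      · exact nonempty_inter (i := i₁) (by omega)
      · exact ⟨x₀, mem_inter.mpr ⟨h, h'⟩⟩
  -- `G` is larger than the star of `x₀`
  have hbig : (star n κ k x₀).card < G.card := by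
    obtain ⟨F, hF1, hF2, hF3⟩ := exists_avoid (n := n)
      (m := fun i => κ i + if i = i₁ then 1 else 0) (by
        intro i
        split_ifs with h
        · subst h; omega
        · exact hk i) (k := k) (by
        rw [sum_add_distrib]
        simp only [sum_ite_eq', mem_univ, if_true]
        omega) hN x₀
    refine card_lt_card ?_
    rw [ssubset_iff_of_subset]
    · refine ⟨F, ?_, ?_⟩
      · simp only [hG, H, mem_filter, mem_univ, true_and]
        refine ⟨⟨hF1, fun i => le_trans ?_ (hF3 i)⟩, Or.inl ?_⟩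
        · simp
        · have := hF3 i₁
          simp only [if_true] at this
          omega
      · simp only [star, mem_filter]
        exact fun h => hF2 h.2
    · intro F hF
      simp only [star, hG, mem_filter] at hF ⊢
      exact ⟨hF.1, Or.inr hF.2⟩
  -- the star of `x₀` is a largest star
  have hmax : ∀ x, (star n κ k x).card ≤ (star n κ k x₀).card := by
    rintro ⟨j, a⟩
    by_cases h : j = i₁
    · subst h
      exact (star_card_eq _ _).le
    · have h1 : (H n κ k).card ≤ 2 * (star n κ k x₀).card := by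
        have h3 := count (n := n) (κ := κ) (k := k) (i := i₁) ⟨0, by omega⟩
        have h4 : ∑ F ∈ H n κ k, κ i₁ ≤ ∑ F ∈ H n κ k, inter F i₁ := by
          refine sum_le_sum fun F hF => ?_
          simp only [H, mem_filter, mem_univ, true_and] at hF
          exact hF.2 i₁
        rw [sum_const, smul_eq_mul, ← h3] at h4
        have h5 : n i₁ * (star n κ k x₀).card = κ i₁ * (2 * (star n κ k x₀).card) := by
          rw [hn]; ring
        have h6 : κ i₁ * (H n κ k).card ≤ κ i₁ * (2 * (star n κ k x₀).card) := by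
          rw [← h5, mul_comm]; exact h4
        exact le_of_mul_le_mul_left h6 (by omega)
      have h2 : 2 * (star n κ k ⟨j, a⟩).card ≤ (H n κ k).card := by
        have h3 := count (n := n) (κ := κ) (k := k) (i := j) a
        have h4 : ∑ F ∈ H n κ k, inter F j
            ≤ ∑ F ∈ H n κ k, ((k - ∑ i, κ i) + κ j) := by
          refine sum_le_sum fun F hF => ?_
          have := upper hF j
          omega
        rw [sum_const, smul_eq_mul, ← h3] at h4
        have h5 := hj j h
        have h6 : 2 * ((k - ∑ i, κ i) + κ j) * (star n κ k ⟨j, a⟩).card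
            ≤ (H n κ k).card * ((k - ∑ i, κ i) + κ j) :=
          (Nat.mul_le_mul_right _ h5).trans h4
        have h7 : ((k - ∑ i, κ i) + κ j) * (2 * (star n κ k ⟨j, a⟩).card)
            ≤ ((k - ∑ i, κ i) + κ j) * (H n κ k).card := by
          calc ((k - ∑ i, κ i) + κ j) * (2 * (star n κ k ⟨j, a⟩).card)
              = 2 * ((k - ∑ i, κ i) + κ j) * (star n κ k ⟨j, a⟩).card := by ring
            _ ≤ (H n κ k).card * ((k - ∑ i, κ i) + κ j) := h6
            _ = _ := by ring
        exact le_of_mul_le_mul_left h7 (by omega)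
      omega
  obtain ⟨x, hx⟩ := hE G (filter_subset _ _) hint
  have := hmax x
  omega

/-- Second disproof: `n = 2k` and `H` is not closed under complements. -/
theorem partB {n κ : Fin d → ℕ} {k : ℕ} (hk : ∀ i, κ i < n i) (i₁ : Fin d) (h2 : 2 ≤ κ i₁)
    (hn₀ : 2 * κ i₁ ≤ n i₁) (hn : n i₁ < 2 * κ i₁ + (k - ∑ i, κ i)) (hN : ∑ i, n i = 2 * k) :
    ¬ EKR n κ k := by
  classical
  have hk0 : 0 < k := by omega
  intro hE
  have hcard : Fintype.card (Σ i, Fin (n i)) = 2 * k := by
    rw [Fintype.card_sigma]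
    simp only [Fintype.card_fin]
    exact hN
  have hcompl : ∀ F : Finset (Σ i, Fin (n i)), ∀ i, inter Fᶜ i + inter F i = n i := by
    intro F i
    have h : inter (Fᶜ ∪ F) i = inter Fᶜ i + inter F i := by
      unfold inter
      rw [filter_union, card_union_of_disjoint]
      exact disjoint_filter_filter disjoint_compl_left
    rw [← h, union_comm, union_compl, inter_univ i]
  set x₀ : Σ i, Fin (n i) := ⟨i₁, ⟨0, by omega⟩⟩ with hx₀
  -- the members of `H` whose complement is not in `H`, and the other ones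
  set U := (H n κ k).filter (fun F => Fᶜ ∉ H n κ k) with hU
  set P := (H n κ k).filter (fun F => Fᶜ ∈ H n κ k) with hP
  set G := (H n κ k).filter (fun F => Fᶜ ∉ H n κ k ∨ x₀ ∈ F) with hG
  have hHc : ∀ F ∈ H n κ k, F.card = k := by
    intro F hF
    simp only [H, mem_filter, mem_univ, true_and] at hF
    exact hF.1
  have hint : ∀ A ∈ G, ∀ B ∈ G, (A ∩ B).Nonempty := by
    intro A hA B hB
    rw [hG, mem_filter] at hA hB
    by_contra h0
    rw [not_nonempty_iff_eq_empty, ← disjoint_iff_inter_eq_empty] at h0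
    have h1 : B = Aᶜ := by
      refine eq_of_subset_of_card_le ?_ ?_
      · rw [subset_compl_iff_disjoint_left]
        exact h0
      · rw [card_compl, hcard, hHc A hA.1, hHc B hB.1]
        omega
    have h2 : Aᶜ ∈ H n κ k := h1 ▸ hB.1
    have h3 : Bᶜ ∈ H n κ k := by rw [h1, compl_compl]; exact hA.1
    have h4 : x₀ ∈ A := by
      rcases hA.2 with h | h
      · exact absurd h2 h
      · exact h
    have h5 : x₀ ∈ B := by
      rcases hB.2 with h | h
      · exact absurd h3 h
      · exact h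
    exact disjoint_left.mp h0 h4 h5
  -- half of the members of `P` contain `x`
  have hhalf : ∀ x, 2 * (P.filter (fun F => x ∈ F)).card = P.card := by
    intro x
    have h1 := card_filter_add_card_filter_not (s := P) (fun F => x ∈ F)
    have h2 : (P.filter (fun F => x ∈ F)).card = (P.filter (fun F => ¬ x ∈ F)).card := by
      refine card_bij (fun F _ => Fᶜ) ?_ ?_ ?_
      · intro F hF
        simp only [hP, mem_filter, mem_compl, compl_compl, not_not] at hF ⊢
        exact ⟨⟨hF.1.2, hF.1.1⟩, hF.2⟩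
      · intro A _ B _ h
        exact compl_injective h
      · intro F hF
        refine ⟨Fᶜ, ?_, compl_compl F⟩
        simp only [hP, mem_filter, mem_compl, compl_compl] at hF ⊢
        exact ⟨⟨hF.1.2, hF.1.1⟩, hF.2⟩
    omega
  have hGcard : G.card = U.card + (P.filter (fun F => x₀ ∈ F)).card := by
    rw [← card_union_of_disjoint]
    · congr 1
      ext F
      simp only [hG, hU, hP, mem_filter, mem_union]
      tauto
    · rw [disjoint_left]
      intro F h1 h2
      simp only [hU, hP, mem_filter] at h1 h2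
      exact h1.2 h2.1.2
  have hstar : ∀ x, (star n κ k x).card
      = (U.filter (fun F => x ∈ F)).card + (P.filter (fun F => x ∈ F)).card := by
    intro x
    rw [← card_union_of_disjoint]
    · congr 1
      ext F
      simp only [star, hU, hP, mem_filter, mem_union]
      tauto
    · rw [disjoint_left]
      intro F h1 h2
      simp only [hU, hP, mem_filter] at h1 h2
      exact h1.1.2 h2.1.2
  obtain ⟨x, hx⟩ := hE G (filter_subset _ _) hint
  have hlt : (U.filter (fun F => x ∈ F)).card < U.card := by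
    obtain ⟨F, hF1, hF2, hF3⟩ := exists_avoid (n := n)
      (m := fun i => κ i + if i = i₁ then n i₁ + 1 - 2 * κ i₁ else 0) (by
        intro i
        split_ifs with h
        · subst h; omega
        · exact hk i) (k := k) (by
        rw [sum_add_distrib]
        simp only [sum_ite_eq', mem_univ, if_true]
        omega) (by omega) x
    refine card_lt_card ?_
    rw [ssubset_iff_of_subset (filter_subset _ _)]
    refine ⟨F, ?_, fun h => hF2 (mem_filter.mp h).2⟩
    simp only [hU, H, mem_filter, mem_univ, true_and]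
    refine ⟨⟨hF1, fun i => le_trans ?_ (hF3 i)⟩, fun h => ?_⟩
    · simp
    · have h3 := h.2 i₁
      have h4 := hcompl F i₁
      have h5 := hF3 i₁
      simp only [if_true] at h5
      omega
  have h1 := hhalf x
  have h2 := hhalf x₀
  have h3 := hstar x
  omega

/-- The EKR property can fail under the hypotheses of the question. -/
theorem result :
    -- (1) it fails as soon as one class has exactly `2 k_i ≥ 4` elements, `s ≥ 1`, and all the
    -- other classes satisfy `n_j ≥ 2 (s + k_j)`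
    (∀ (d : ℕ) (n κ : Fin d → ℕ) (k : ℕ) (i₁ : Fin d), 2 ≤ d → ∑ i, κ i < k → 2 ≤ κ i₁ →
      n i₁ = 2 * κ i₁ → (∀ j, j ≠ i₁ → 2 * ((k - ∑ i, κ i) + κ j) ≤ n j) →
      Hyp n κ k ∧ ¬ EKR n κ k) ∧
    -- (2) it fails when `n = 2k` and `H` is not closed under complementation
    (∀ (d : ℕ) (n κ : Fin d → ℕ) (k : ℕ) (i₁ : Fin d), (∀ i, κ i < n i) → 2 ≤ κ i₁ →
      2 * κ i₁ ≤ n i₁ → n i₁ < 2 * κ i₁ + (k - ∑ i, κ i) → ∑ i, n i = 2 * k →
      ¬ EKR n κ k) ∧
    -- (3) it fails in the two-class family `n = (2a+1, 2b+2s-1)`, `κ = (a, b)`, `k = a + b + s`,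
    -- where all inequalities in the hypotheses hold strictly for both classes
    (∀ a b s : ℕ, 2 ≤ s → s ≤ a → 1 ≤ b →
      (∀ i, 0 < (![a, b] : Fin 2 → ℕ) i) ∧
      (∀ i, 2 * (![a, b] : Fin 2 → ℕ) i < (![2 * a + 1, 2 * b + 2 * s - 1] : Fin 2 → ℕ) i) ∧
      (∀ i, (a + b + s - ∑ j, (![a, b] : Fin 2 → ℕ) j) + (![a, b] : Fin 2 → ℕ) i
        < (![2 * a + 1, 2 * b + 2 * s - 1] : Fin 2 → ℕ) i) ∧
      Hyp ![2 * a + 1, 2 * b + 2 * s - 1] ![a, b] (a + b + s) ∧
      ¬ EKR ![2 * a + 1, 2 * b + 2 * s - 1] ![a, b] (a + b + s)) ∧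
    -- (4) hence the statement asked for is false
    ¬ (∀ (d : ℕ) (n κ : Fin d → ℕ) (k : ℕ), Hyp n κ k → EKR n κ k) := by
  have hA : ∀ (d : ℕ) (n κ : Fin d → ℕ) (k : ℕ) (i₁ : Fin d), 2 ≤ d → ∑ i, κ i < k → 2 ≤ κ i₁ →
      n i₁ = 2 * κ i₁ → (∀ j, j ≠ i₁ → 2 * ((k - ∑ i, κ i) + κ j) ≤ n j) →
      Hyp n κ k ∧ ¬ EKR n κ k :=
    fun d n κ k i₁ h1 h2 h3 h4 h5 => partA h1 i₁ h3 h4 h2 h5
  refine ⟨hA, fun d n κ k i₁ h1 h2 h3 h4 h5 => partB h1 i₁ h2 h3 h4 h5, ?_, ?_⟩
  · intro a b s hs hsa hb
    have hsum : ∑ j, (![a, b] : Fin 2 → ℕ) j = a + b := by simp [Fin.sum_univ_two]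
    have hsum' : ∑ j, (![2 * a + 1, 2 * b + 2 * s - 1] : Fin 2 → ℕ) j
        = 2 * a + 1 + (2 * b + 2 * s - 1) := by simp [Fin.sum_univ_two]
    refine ⟨?_, ?_, ?_, ⟨by norm_num, ?_, ?_, ?_, 0, ?_⟩, partB ?_ 0 ?_ ?_ ?_ ?_⟩
    all_goals
      simp only [hsum, hsum', Fin.forall_fin_two, Matrix.cons_val_zero, Matrix.cons_val_one]
      try omega
  · intro h
    obtain ⟨h1, h2⟩ := hA 2 ![4, 4] ![2, 1] 4 0 le_rfl (by simp [Fin.sum_univ_two])
      (by simp) (by simp) (by
        simp only [Fin.forall_fin_two, Fin.sum_univ_two, Matrix.cons_val_zero,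
          Matrix.cons_val_one]
        simp)
    exact h2 (h _ _ _ _ h1)

end Pool.Agent.Results.MP_01f920_co.MultipartEKRFails
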